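import Pool.Agent.R739.PPWave.Final

/-!
# `MP_89bbb3_gt`, Q1: the answer is negative

The Lorentzian metric `g = ½ (dt ⊗ dy + dy ⊗ dt) + dx² + x⁴ dy²` on `ℝ³` is conformally non-flat and
`∂_t` is a (parallel, null) normal conformal Killing field, but no nonempty open subset of
`(ℝ³, g)` is conformally isomorphic to an open subset of `(ℝ³, g_h)`, for any smooth `h`.

Sketch. Let `φ` be a conformal isomorphism. The push-forward `K` of `∂_t` is a null conformal Killing
field of `g_h`. Differentiating the conformal Killing equation of `g_h` shows `K^y_x H_xxx = 0`, where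
`H = x³ + h(y) x`, and then nullity gives `H_xxx (K^y)² = 0`; so `K` is a multiple of `∂_t`. Then the
`y`-component of `φ` depends only on `y` and the conformal factor is a function of `y`, and the `x`
component is affine in `x`; the fourth `x`-derivative of the `dy²`-component of `φ^* g_h = e^{2u} g`
reads `0 = 24 e^{2u}`.
-/

open scoped ContDiff

open Pool.Agent.R739.PPWave in
/-- On `ℝ³` with coordinates `(x, y, t) = (p 0, p 1, p 2)` let
`g = ½ (dt ⊗ dy + dy ⊗ dt) + dx² + x⁴ dy²`. Then `g` is a smooth Lorentzian metric, the constant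
vector field `∂_t` is a conformal Killing field of `g` which is normal (`Y_abr k^r = 0`), the Cotton
tensor of `g` is nonzero at every point with `x ≠ 0`, and for every smooth `h` no nonempty open subset
`U` of `(ℝ³, g)` is conformally isomorphic to an open subset `U'` of `(ℝ³, g_h)`. -/
theorem Pool.Agent.Results.MP_89bbb3_gt.PPWaveCounterexample.result :
    IsLorentzian Set.univ (ppWave fun p => p 0 ^ 4) ∧
    IsConformalKilling Set.univ (ppWave fun p => p 0 ^ 4) (fun _ => Pi.single 2 1) ∧
    IsNormal Set.univ (ppWave fun p => p 0 ^ 4) (fun _ => Pi.single 2 1) ∧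
    (∀ p : V, p 0 ≠ 0 → ∃ c a b, cotton (ppWave fun p => p 0 ^ 4) c a b p ≠ 0) ∧
    ∀ h : ℝ → ℝ, ContDiff ℝ ∞ h → ∀ U U' : Set V, IsOpen U → IsOpen U' → U.Nonempty →
      ¬ ∃ φ : V → V, IsConformalIso U (ppWave fun p => p 0 ^ 4) U' (gh h) φ := by
  refine ⟨isLorentzian_ppWave ((contDiff_apply ℝ ℝ (0 : Fin 3)).pow 4) _, isConformalKilling_gEx,
    isNormal_gEx, fun p hp => ⟨1, 0, 1, ?_⟩, ?_⟩
  · have h := cotton_gEx 1 0 1 p
    rw [gEx] at h
    rw [h]
    simpa using hp
  · rintro h hh U U' hU hU' hne ⟨φ, hφ⟩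
    exact no_conformalIso hU hU' hne hh φ hφ
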